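import Pool.Agent.H838.CFLefMain
import Pool.Agent.H838.CFLefPow

/-!
# Chow-Kunneth decompositions and motivic hard Lefschetz: descent of the coefficients

`𝒱` is a class of smooth projective geometrically irreducible varieties over the field `k` closed
under products (for example all of them), `C` the Chow groups with rational coefficients (in the
form of their formal properties, `IsChowProj`), and `H` a Weil cohomology theory (`IsWeilProj`).
`ChF F C` are the Chow groups with coefficients in a field `F` of characteristic zero, and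
`CKF F X H p` says that `p` is a Chow-Kunneth decomposition of `X` with coefficients in `F`. Let
`L ∈ CH^(d+1)(X × X)`, `d = dim X`, be a rational symmetric correspondence, for example the
intersection with a divisor class. `MotivicLefschetzF F L p` says that `L` is homogeneous of degree
two for `p` and that `L^(d-n) : h^n(X) → h^(2d-n)(X)(d-n)` is an isomorphism of Chow motives with
coefficients in `F` for `n ≤ d`.

1. `X` has a Chow-Kunneth decomposition with coefficients in `F` satisfying motivic hard Lefschetz for
   `L` if and only if it has a rational self-dual one.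
2. In this case, for each finite group of self-correspondences (for example automorphisms) commuting
   with `L`, the rational self-dual decomposition can be chosen invariant.
3. If a variety `Y` has a Chow-Kunneth decomposition with coefficients in `F` satisfying motivic hard
   Lefschetz for `M`, then every `X` such that `(X, L)` is a direct factor of a twist of `(Y, M)` has a
   rational self-dual one satisfying motivic hard Lefschetz for `L`.
4. Without motivic hard Lefschetz: let `X` have Chow-Kunneth decompositions with coefficients in number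
   fields `E i` and let `g` be the greatest common divisor of their degrees. Then for all large
   multiples `m` of `g` the variety `X^m` has a rational Chow-Kunneth decomposition.

For the proof of 1, a `ℚ`-linear retraction `F → ℚ` is applied to relations between correspondences
which are linear in the unknown correspondence with coefficients in `F`.
-/

set_option autoImplicit false

universe u v w t s

namespace Pool.Agent.Results.MP_524776_ag.LefschetzDescent

open Pool.Agent.H914 Pool.Agent.H914.VarClass Pool.Agent.H914.VarClass.Obj Pool.Agent.W492.BB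
  Pool.Agent.W550.Corr Pool.Agent.TH133 Pool.Agent.Y107 Pool.Agent.H838.CF

theorem result {k : Type u} [Field k] {𝒱 : VarClass k} (C : TheoryData.{u, v, 0} 𝒱 ℚ)
    [IsChowProj C] {K : Type w} [Field K] (H : WeilTheoryData.{u, v, w} C K) [IsWeilProj H]
    (F : Type t) [Field F] [Algebra ℚ F] (X : 𝒱.Obj) :
    (∀ L : C.A (X.prod X), C.Deg ((X.dim : ℤ) + 1) L → tp C L = L →
      ((∃ p, CKF F X H p ∧ MotivicLefschetzF F L p) ↔ ∃ π, SelfDualLefschetz H L π) ∧
      ((∃ p, CKF F X H p ∧ MotivicLefschetzF F L p) →
        ∀ (G : Type) [Group G] [Finite G] (ρ : G → C.A (X.prod X)), GroupCor C ρ →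
          (∀ g, C.comp L (ρ g) = C.comp (ρ g) L) →
          ∃ π, SelfDualLefschetz H L π ∧ ∀ g n, C.comp (π n) (ρ g) = C.comp (ρ g) (π n)) ∧
      (∀ (Y : 𝒱.Obj) (M : C.A (Y.prod Y)), C.Deg ((Y.dim : ℤ) + 1) M → tp C M = M →
        LefschetzFactor C L M → (∃ p, CKF F Y H p ∧ MotivicLefschetzF F M p) →
          ∃ π, SelfDualLefschetz H L π)) ∧
    (∀ (ι : Type s) (E : ι → Type t) [∀ i, Field (E i)] [∀ i, Algebra ℚ (E i)]
      [∀ i, FiniteDimensional ℚ (E i)], (∀ i, ∃ p, CKF (E i) X H p) →
      ∃ N, ∀ m ≥ N, Nat.setGcd (Set.range fun i => Module.finrank ℚ (E i)) ∣ m + 1 →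
        ∃ π, IsCK H (pw X m) π) := by
  have key : ∀ (Y : 𝒱.Obj) (M : C.A (Y.prod Y)), C.Deg ((Y.dim : ℤ) + 1) M → tp C M = M →
      ((∃ p, CKF F Y H p ∧ MotivicLefschetzF F M p) ↔
        ∃ π, IsCK H Y π ∧ IsSelfDual C π ∧ MotivicLefschetz C M π) :=
    fun Y M hM hs => lef_iff F hM hs
  refine ⟨fun L hL hsym => ⟨?_, ?_, ?_⟩, fun ι E _ _ _ h => exists_large E h⟩
  · rw [key X L hL hsym]
    exact ⟨fun ⟨π, h1, h2, h3⟩ => ⟨π, h1, h2, h3⟩, fun ⟨π, h⟩ => ⟨π, h.ck, h.selfDual, h.lefschetz⟩⟩
  · rintro ⟨p, hp, hM⟩ G _ _ ρ hρ hρL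
    obtain ⟨e1, _, _⟩ := inSquare_iff_all (H := H) hL hsym (hl_of_F hp hM)
    obtain ⟨π, h1, h2, h3, h4⟩ := exists_equivariant hL hsym (hl_of_F hp hM)
      (e1.2 ((lefSys_of hp hM).regular hL)) G ρ hρ hρL
    exact ⟨π, ⟨h1, h2, h3⟩, h4⟩
  · rintro Y M hM hs ⟨e, a, b, he, ha, hb, hab, hLa, hLb⟩ h
    obtain ⟨π, h1, _, h3⟩ := (key Y M hM hs).1 h
    obtain ⟨π', h1', h2', h3'⟩ := exists_selfDual_of_factor he hL hM hsym ha hb hab hLa hLb
      ⟨π, h1, h3⟩
    exact ⟨π', h1', h2', h3'⟩

end Pool.Agent.Results.MP_524776_ag.LefschetzDescent
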