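import Pool.Agent.H858.SD.Main

/-!
# Products of many varieties have almost a Chow-Kunneth decomposition, and a self-dual one

Let `Y, X_0, X_1, …` be smooth projective varieties, `b_1(X_j) > 0`, with sums of Betti numbers at
most `b'` (for `Y`) and `b` (for all `X_j`), and `Z = Y × X_0 × ⋯ × X_(n - 1)`, `N = dim Z`. Let `s ≥ 1`
be such that projectors `π_0, …, π_s` are known for the `X_j`, and `π_0, …, π_(s - 1)` for `Y`: mutually
orthogonal idempotents modulo rational equivalence with `π_a ∘ ᵗπ_b = ᵗπ_b ∘ π_a = 0` for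
`a + b < 2 dim`. For `s = 1` this is known for **all** varieties (Murre: `π_0`, `π_1`).

**Theorem.** There is a self-dual decomposition of the Chow motive of `Z`: mutually orthogonal
idempotents `P_0, …, P_(2 N) ∈ CH^N(Z × Z)` with sum `Δ_Z` and `ᵗP_i = P_(2 N - i)`, which does not depend
on a Weil cohomology theory, such that, for all theories, `P_N` acts as the identity on `H^N(Z)`, and for
`i < N` the correspondence `P_i` acts as a projector onto a subspace of `H^i(Z)` of codimension at most

`(b' + 2 b i) (4 i / n) ^ s b_i(Z)`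

(and zero, if `i < s`); it acts as zero on `H^m(Z)`, `m ≠ i`; the same holds for `P_(2 N - i)` and
`H^(2 N - i)(Z)`.

So for every fixed `i`, and even for `i = o(√n)`, the motives `(Z, P_i)` and `(Z, P_(2 N - i))` exhaust
`H^i(Z)` and `H^(2 N - i)(Z)` up to a share `O(i ^ 2 / n)`, although no projector of a degree between `2`
and `2 dim - 2` is known for `Y` or any `X_j`; with projectors up to degree `s` for the `X_j`, up to
`O(i ^ (s + 1) / n ^ s)`.

**Proof.** `P_i = ∑ π_(a_0)(Y) ⊠ π_(a_1)(X_0) ⊠ ⋯` (sum over `∑ a_j = i`) for `i < N`. The relations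
`P_i ∘ ᵗP_j = 0` for `i + j < 2 N` follow, since some factor is zero. Let `β` be the convolution of
the Betti numbers of the factors. Since `b_0 = 1` and `b_1 ≥ 1` for `n` factors, one has
`n β_m ≤ (m + 1) β_(m + 1) + m β_m`, so `β_m ≤ (2 i / n) ^ (i - m) β_i` for `m < i ≤ n / 4`; and the
defect of the truncated convolution is at most `b' ∑_(m ≤ i - s) β_m + n b ∑_(m < i - s) β_m`.
-/

open CategoryTheory AlgebraicGeometry

universe u v w

namespace Pool.Agent.Results.MP_524776_ag.ProductsOfManyVarieties

open Pool.Agent.H914 Pool.Agent.H914.VarClass Pool.Agent.H914.VarClass.Obj Pool.Agent.W492.BB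
  Pool.Agent.TH133 Pool.Agent.H858.SD

theorem result {k : Type u} [Field k] {𝒱 : VarClass k} (C : TheoryData.{u, v, 0} 𝒱 ℚ)
    [IsChowProj C] {Y : 𝒱.Obj} {X : ℕ → 𝒱.Obj}
    -- the known projectors of `Y` and of the `X j`
    (q : ℕ → C.A (Y.prod Y)) (p : ∀ j, ℕ → C.A ((X j).prod (X j)))
    (hq : IsLower C Y q) (hp : ∀ j, IsLower C (X j) (p j)) {n : ℕ} (hn : 0 < n) :
    -- `tower Y X n = Y × X 0 × ⋯ × X (n - 1)`
    ∃ P : ℕ → C.A ((tower Y X n).prod (tower Y X n)), IsSelfDualSum C (tower Y X n) P ∧
      ∀ {K : Type w} [Field K] (H : WeilTheoryData.{u, v, w} C K) [IsWeilProj H] (s b b' : ℕ),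
        0 < s → Known H s b b' q p → AlmostCK H (tower Y X n) P (share s b b' n) :=
  main hq hp hn

end Pool.Agent.Results.MP_524776_ag.ProductsOfManyVarieties
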